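import Mathlib
import Pool.Agent.H18.SqfShift

namespace Pool.Agent.Results.MP_fcd74d_nt.Infinite

theorem result :
    Set.Infinite {n : ℕ | 3 ≤ n ∧ ∀ k : ℕ, 1 ≤ k → 2 ^ k < n → Squarefree (n - 2 ^ k)} := by
  apply Set.infinite_of_forall_exists_gt
  intro N
  obtain ⟨L, hL⟩ : ∃ L : ℕ, 224 ≤ L := ⟨224, le_rfl⟩
  obtain ⟨n, hn, h⟩ := Pool.Agent.H18.SqfShift.exists_good L (2 ^ L + N + 3) hL
    (by rw [add_assoc]; exact Nat.le_add_right _ _)
  have h1 : N + 3 < n := lt_of_le_of_lt (by rw [add_assoc]; exact Nat.le_add_left _ _) hn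
  exact ⟨n, ⟨by omega, h⟩, by omega⟩

end Pool.Agent.Results.MP_fcd74d_nt.Infinite
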